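import Pool.Agent.K.MP_ea46f5_nt.C32

/-! Controls for the fourth moment: `Q_±(4, x)` is a polynomial of degree ten. -/

namespace Pool.Agent.Q4.Tq

open Complex MeasureTheory Finset Pool.Agent.QM Pool.Agent.Q4
open scoped Real

/-- The homogeneous part of the kernel. -/
noncomputable def W (z : Fin 4 → ℂ) : ℂ := (Vd z * Vd fun j => z j ^ 2) / P8 z

theorem W_le {ρ : ℝ} (hρ : 0 < ρ) {z : Fin 4 → ℂ} (hz : z ∈ Ann 4 ρ ρ) :
    ‖W z‖ ≤ 2 ^ 12 / ρ ^ 14 := by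
  have h : ∀ j, ‖z j‖ = ρ := fun j => le_antisymm (hz j).2 (hz j).1
  have a1 := ld_vb fun j => (h j).le
  have a2 := ld_vb (w := fun j => z j ^ 2) (s := ρ ^ 2) fun j => by rw [norm_pow, h]
  have a4 : ‖P8 z‖ = ρ ^ 32 := by
    simp only [P8, norm_prod, norm_pow, h, prod_const, card_univ, Fintype.card_fin, ← pow_mul]
  rw [W, norm_div, norm_mul, a4]
  calc _ ≤ ((2 * ρ) ^ 6 * (2 * ρ ^ 2) ^ 6) / ρ ^ 32 := by gcongr
    _ = _ := by field_simp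

theorem ld_val {r : ℝ} (hr : 0 < r) (L : ℝ) :
    On r (ld_K L) = (2 * π) ^ 4 / 201600 * L ^ 10 := by
  set f : Equiv.Perm (Fin 4) → Equiv.Perm (Fin 4) → (Fin 4 → ℂ) → ℂ := fun τ σ z =>
    ((Equiv.Perm.sign τ : ℤ) * (Equiv.Perm.sign σ : ℤ) : ℂ) *
      ∏ j, cexp (L / 2 * z j) * z j ^ ((σ j : ℕ) + 2 * τ j) / z j ^ 8 with hf
  have e : ld_K L = fun z => ∑ τ, ∑ σ, f τ σ z := by
    funext z
    rw [ld_K, ld_vd, ld_vd, mul_comm (∑ _, _), sum_mul_sum, mul_sum, sum_div]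
    refine sum_congr rfl fun τ _ => ?_
    rw [mul_sum, sum_div]
    refine sum_congr rfl fun σ _ => ?_
    simp only [hf, us, P8, Fin.prod_univ_four, Fin.sum_univ_four]
    rw [show (L : ℂ) * ((z 0 + z 1 + z 2 + z 3) / 2) =
      L / 2 * z 0 + L / 2 * z 1 + L / 2 * z 2 + L / 2 * z 3 by ring]
    simp only [Complex.exp_add]
    ring
  have hi : ∀ τ σ, TorusIntegrable (f τ σ) 0 fun _ => r := fun τ σ =>
    tor_integrable (U := Ann 4 r r) (continuousOn_const.mul (continuousOn_finsetProd _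
      fun j _ => ContinuousOn.div (by fun_prop) (by fun_prop)
        fun z hz => pow_ne_zero _ (ld_ne hr hz j))) (tm_ann hr)
  have e2 : torusIntegral (ld_K L) 0 (fun _ => r) =
      ∑ τ, ∑ σ, torusIntegral (f τ σ) 0 fun _ => r := by
    simp only [e, torusIntegral, smul_sum]
    rw [integral_finsetSum _ fun τ _ => integrable_finsetSum _ fun σ _ =>
      (hi τ σ).function_integrable]
    exact sum_congr rfl fun τ _ => integral_finsetSum _ fun σ _ => (hi τ σ).function_integrable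
  have e3 : ∀ τ σ, torusIntegral (f τ σ) 0 (fun _ => r) =
      ((Equiv.Perm.sign τ : ℤ) * (Equiv.Perm.sign σ : ℤ) : ℂ) *
        ∏ j, (Matrix.of fun i k : Fin 4 => ld_mu (L / 2) (i + 2 * k)) (σ j) (τ j) := fun τ σ => by
    rw [hf, torusIntegral_const_mul,
      ld_prod r fun j w => cexp (L / 2 * w) * w ^ ((σ j : ℕ) + 2 * τ j) / w ^ 8]
    simp only [ld_one hr, Matrix.of_apply]
  have e4 : (Matrix.of fun i k : Fin 4 => ld_mu (L / 2) (i + 2 * k)).det =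
      (((2 * π) ^ 4 / 4838400 * L ^ 10 : ℝ) : ℂ) := by
    simp [Matrix.det_succ_row_zero, Fin.sum_univ_succ, ld_mu, Fin.succAbove, Nat.factorial]
    linear_combination (π ^ 4 * L ^ 10 / 302400 : ℂ) * I_pow_four
  rw [On, e2]
  simp only [e3]
  rw [ld_det, e4, I_pow_four, inv_one, one_mul]
  push_cast
  ring

theorem On_sum {r : ℝ} (hr : 0 < r) (s : Finset ℕ) (G : ℕ → (Fin 4 → ℂ) → ℂ)
    (hG : ∀ n, ContinuousOn (G n) (Ann 4 r r)) :
    On r (fun z => ∑ n ∈ s, G n z) = ∑ n ∈ s, On r (G n) := by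
  simp only [On, torusIntegral, smul_sum]
  rw [integral_finsetSum _ fun n _ => (tor_integrable (hG n) (tm_ann hr)).function_integrable,
    mul_sum]

theorem small {r₀ : ℝ} {G H : (Fin 4 → ℂ) → ℂ} (hG : ∀ ρ, 0 < ρ → Sep (Ann 4 ρ r₀) G)
    (hH : ∀ ρ, 0 < ρ → Sep (Ann 4 ρ r₀) H)
    (h : ∀ ε : ℝ, 0 < ε → ∃ ρ, 0 < ρ ∧ ρ ≤ r₀ ∧ ∀ z ∈ Ann 4 ρ ρ, ‖G z - H z‖ ≤ ε / ρ ^ 4) :
    On r₀ G = On r₀ H := by
  refine sub_eq_zero.1 (norm_le_zero_iff.1 (le_of_forall_pos_le_add fun ε hε => ?_))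
  have hπ := Real.pi_pos
  obtain ⟨ρ, h0, h1, h2⟩ := h (ε / (2 * π) ^ 4) (by positivity)
  have hsub : Ann 4 ρ ρ ⊆ Ann 4 ρ r₀ := fun z hz j => ⟨(hz j).1, (hz j).2.trans h1⟩
  rw [← pRAD 4 ρ r₀ G h0 h1 (hG ρ h0), ← pRAD 4 ρ r₀ H h0 h1 (hH ρ h0),
    ← pONB.2.1 4 ρ G H h0 ((hG ρ h0).1.mono hsub) ((hH ρ h0).1.mono hsub)]
  refine (pONB.1 4 ρ _ _ h0 h2).trans_eq ?_
  field_simp
  ring

/-- Holomorphy of `E(us z) W(z) p(z)` on annuli, for every entire `E`. -/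
def Good (r₀ : ℝ) (p : (Fin 4 → ℂ) → ℂ) : Prop :=
  ∀ E : ℂ → ℂ, Differentiable ℂ E → ∀ ρ, 0 < ρ → Sep (Ann 4 ρ r₀) fun z => E (us z) * (W z * p z)

theorem near {r₀ : ℝ} (h0 : 0 < r₀) {p : (Fin 4 → ℂ) → ℂ} (hp : ContinuousAt p 0) {ε : ℝ}
    (hε : 0 < ε) : ∃ δ, 0 < δ ∧ δ ≤ r₀ ∧ ∀ ρ, 0 < ρ → ρ ≤ δ → ∀ z ∈ Ann 4 ρ ρ, ‖p z - p 0‖ ≤ ε := by
  obtain ⟨δ, hδ, h⟩ := Metric.continuousAt_iff.1 hp ε hε
  refine ⟨min (δ / 2) r₀, by positivity, min_le_right _ _, fun ρ hρ hle z hz => ?_⟩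
  have := h (x := z) (by
    rw [dist_zero_right]
    refine ((pi_norm_le_iff_of_nonneg hρ.le).2 fun j => (hz j).2).trans_lt ?_
    linarith [hle.trans (min_le_left _ _)])
  rw [dist_eq_norm] at this
  exact this.le

theorem expand {r₀ : ℝ} (h0 : 0 < r₀) {p : (Fin 4 → ℂ) → ℂ} (hS : Good r₀ p)
    (hp : ContinuousAt p 0) (x : ℂ) :
    On r₀ (fun z => cexp (x * us z) * (W z * p z)) =
      ∑ n ∈ range 11, x ^ n / n.factorial * On r₀ fun z => us z ^ n * (W z * p z) := by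
  have h1 : On r₀ (fun z => cexp (x * us z) * (W z * p z)) =
      On r₀ fun z => (∑ n ∈ range 11, (x * us z) ^ n / n.factorial) * (W z * p z) := by
    refine small (hS (fun w => cexp (x * w)) (by fun_prop))
      (hS (fun w => ∑ n ∈ range 11, (x * w) ^ n / n.factorial) (by fun_prop)) fun ε hε => ?_
    obtain ⟨δ, hδ, hδ', h⟩ := near h0 hp one_pos
    set M : ℝ := (‖x‖ * 2) ^ 11 * Real.exp (‖x‖ * (2 * r₀)) * (2 ^ 12 * (‖p 0‖ + 1)) + 1 with hM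
    have hM0 : 0 < M := by positivity
    have hρ : 0 < min δ (ε / M) := by positivity
    refine ⟨min δ (ε / M), hρ, (min_le_left _ _).trans hδ', fun z hz => ?_⟩
    have h2 := h _ hρ (min_le_left _ _) z hz
    have h3 : min δ (ε / M) ≤ ε / M := min_le_right _ _
    have h4 : min δ (ε / M) ≤ r₀ := (min_le_left _ _).trans hδ'
    generalize min δ (ε / M) = ρ at hρ hz h3 h4
    have b1 := W_le hρ hz
    have b2 := ld_us fun j => (hz j).2
    have b3 : ‖p z‖ ≤ ‖p 0‖ + 1 := by linarith [norm_sub_norm_le (p z) (p 0)]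
    have b4 := Complex.norm_exp_sub_sum_le_norm_mul_exp (x * us z) 11
    have b5 : ‖x * us z‖ ≤ ‖x‖ * (2 * ρ) := by rw [norm_mul]; gcongr
    have b6 : ‖x * us z‖ ≤ ‖x‖ * (2 * r₀) := b5.trans (by gcongr)
    rw [← sub_mul, norm_mul, norm_mul]
    calc _ ≤ ((‖x‖ * (2 * ρ)) ^ 11 * Real.exp (‖x‖ * (2 * r₀))) * (2 ^ 12 / ρ ^ 14 * (‖p 0‖ + 1)) := by
          gcongr
          exact b4.trans (by gcongr)
      _ = (M - 1) * ρ / ρ ^ 4 := by rw [hM]; field_simp; ring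
      _ ≤ ε / ρ ^ 4 := by
          gcongr
          rw [le_div_iff₀ hM0] at h3
          nlinarith
  rw [h1]
  simp only [sum_mul]
  rw [On_sum h0]
  · refine sum_congr rfl fun n _ => ?_
    rw [← On_const_mul]
    congr 1
    funext z
    ring
  · exact fun n => (hS (fun w => (x * w) ^ n / n.factorial) (by fun_prop) r₀ h0).1

theorem top_one {r₀ : ℝ} (h0 : 0 < r₀) (hS : Good r₀ fun _ => 1) :
    On r₀ (fun z => us z ^ 10 * (W z * 1)) = (Nat.factorial 10 : ℂ) * ((2 * π) ^ 4 / 201600) := by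
  set c : ℕ → ℂ := fun n => (n.factorial : ℂ)⁻¹ * On r₀ fun z => us z ^ n * (W z * 1) with hc
  have h : (∑ n ∈ range 11, Polynomial.monomial n (c n)) =
      Polynomial.monomial 10 ((2 * π) ^ 4 / 201600 : ℂ) := by
    refine Polynomial.eq_of_infinite_eval_eq _ _
      ((Set.infinite_range_of_injective ofReal_injective).mono ?_)
    rintro _ ⟨x, rfl⟩
    have h1 := expand h0 hS continuousAt_const x
    have h2 : (fun z => cexp (x * us z) * (W z * 1)) = ld_K x := by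
      funext z
      simp only [W, ld_K]
      ring
    rw [h2, ld_val h0] at h1
    simp only [Set.mem_ofPred_eq, Polynomial.eval_finsetSum, Polynomial.eval_monomial]
    rw [h1]
    exact sum_congr rfl fun n _ => by rw [hc]; ring
  have h3 := congrArg (Polynomial.coeff · 10) h
  simp only [Polynomial.finsetSum_coeff, Polynomial.coeff_monomial, sum_ite_eq', mem_range,
    if_true, show 10 < 11 by norm_num, hc] at h3
  have h4 : (Nat.factorial 10 : ℂ) ≠ 0 := Nat.cast_ne_zero.2 (Nat.factorial_ne_zero _)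
  rw [← h3, mul_inv_cancel_left₀ h4]

theorem top {r₀ : ℝ} (h0 : 0 < r₀) {p : (Fin 4 → ℂ) → ℂ} (hS : Good r₀ p)
    (hS1 : Good r₀ fun _ => 1) (hp : ContinuousAt p 0) :
    On r₀ (fun z => us z ^ 10 * (W z * p z)) =
      p 0 * ((Nat.factorial 10 : ℂ) * ((2 * π) ^ 4 / 201600)) := by
  rw [← top_one h0 hS1, ← On_const_mul]
  simp only [← mul_assoc (p 0)]
  refine small (hS (fun w => w ^ 10) (by fun_prop)) (hS1 (fun w => p 0 * w ^ 10) (by fun_prop))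
    fun ε hε => ?_
  obtain ⟨ρ, hρ, hρ', h⟩ := near h0 hp (ε := ε / 2 ^ 22) (by positivity)
  refine ⟨ρ, hρ, hρ', fun z hz => ?_⟩
  have h2 := h ρ hρ le_rfl z hz
  have b1 := W_le hρ hz
  have b2 := ld_us fun j => (hz j).2
  rw [show us z ^ 10 * (W z * p z) - p 0 * us z ^ 10 * (W z * 1) =
    us z ^ 10 * (W z * (p z - p 0)) by ring, norm_mul, norm_mul, norm_pow]
  calc _ ≤ (2 * ρ) ^ 10 * (2 ^ 12 / ρ ^ 14 * (ε / 2 ^ 22)) := by gcongr
    _ = _ := by field_simp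

theorem poly {r₀ : ℝ} (h0 : 0 < r₀) {p : (Fin 4 → ℂ) → ℂ} (hS : Good r₀ p)
    (hS1 : Good r₀ fun _ => 1) (hp : ContinuousAt p 0) (hp0 : p 0 ≠ 0) {k : ℂ} (hk : k ≠ 0) :
    ∃ P : Polynomial ℂ, P.natDegree = 10 ∧ P.leadingCoeff = k * (p 0 * ((2 * π) ^ 4 / 201600)) ∧
      ∀ r, 0 < r → r ≤ r₀ → ∀ x : ℂ,
        k * On r (fun z => cexp (x * us z) * (W z * p z)) = P.eval x := by
  set c : ℕ → ℂ := fun n => k * ((n.factorial : ℂ)⁻¹ * On r₀ fun z => us z ^ n * (W z * p z))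
    with hc
  have h4 : (Nat.factorial 10 : ℂ) ≠ 0 := Nat.cast_ne_zero.2 (Nat.factorial_ne_zero _)
  have h1 : (∑ n ∈ range 11, Polynomial.monomial n (c n)).coeff 10 =
      k * (p 0 * ((2 * π) ^ 4 / 201600)) := by
    simp only [Polynomial.finsetSum_coeff, Polynomial.coeff_monomial, sum_ite_eq', mem_range,
      if_true, show 10 < 11 by norm_num, hc]
    rw [top h0 hS hS1 hp]
    field_simp
  have h2 : (∑ n ∈ range 11, Polynomial.monomial n (c n)).natDegree = 10 := by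
    refine Polynomial.natDegree_eq_of_le_of_coeff_ne_zero
      (Polynomial.natDegree_sum_le_of_forall_le _ _ fun n hn =>
        (Polynomial.natDegree_monomial_le _).trans (by have := mem_range.1 hn; omega)) ?_
    rw [h1]
    have : (π : ℂ) ≠ 0 := ofReal_ne_zero.2 Real.pi_ne_zero
    simp [hk, hp0, this]
  refine ⟨_, h2, by rw [Polynomial.leadingCoeff, h2, h1], fun r hr hle x => ?_⟩
  rw [pRAD 4 r r₀ _ hr hle (hS (fun w => cexp (x * w)) (by fun_prop) r hr), expand h0 hS hp]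
  simp only [Polynomial.eval_finsetSum, Polynomial.eval_monomial, mul_sum]
  exact sum_congr rfl fun n _ => by rw [hc]; ring

theorem good {r₀ : ℝ} (h1 : r₀ ≤ 1 / 16) {Ph q : (Fin 4 → ℂ) → ℂ} (hS : Sep (Pd 4 r₀) Ph)
    (e : ∀ z, Ph z = (Vd z * Vd fun j => z j ^ 2) * q z) {g : ℂ → ℂ}
    (hg : ∀ w : ℂ, ‖w‖ ≤ 1 / 8 → DifferentiableAt ℂ g w) : Good r₀ fun z => g (us z) * q z := by
  intro E hE ρ hρ
  have h := qq_sep hρ h1 hS (E := fun w => E w * g w) fun w hw => (hE w).mul (hg w hw)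
  have e2 : (fun z => E (us z) * (W z * (g (us z) * q z))) =
      fun z => E (us z) * g (us z) * Ph z / P8 z := by
    funext z
    rw [e, W]
    ring
  rw [e2]
  exact h

theorem good_one {r₀ : ℝ} (h1 : r₀ ≤ 1 / 16) : Good r₀ fun _ => 1 := by
  have d : Differentiable ℂ fun z : Fin 4 → ℂ => Vd z * Vd fun j => z j ^ 2 := by
    unfold Vd
    fun_prop
  have h := good h1 (Ph := fun z => Vd z * Vd fun j => z j ^ 2) (q := fun _ => 1)
    ⟨d.continuous.continuousOn, fun s _ i => ld_upd (d s) i⟩ (fun z => (mul_one _).symm)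
    (g := fun _ => 1) fun _ _ => differentiableAt_const _
  simpa only [mul_one] using h

theorem ldP {a : ℕ} (ha : a ≤ 1) : ContinuousAt (ld_P a) 0 ∧ ld_P a 0 = Aprod 4 0 / 16 := by
  obtain ⟨r₁, a₁, a₂, a₃, e, hr₂, hT⟩ := pTAY a ha (fun _ => 1) (by fun_prop) (fun _ => rfl) rfl
  obtain ⟨hA, -, -⟩ := pA4H
  obtain ⟨hT1, -, hT2⟩ := hT 0 (by simpa using hr₂.le)
  have hg : Gammaℝ (1 / 2 + a) ≠ 0 :=
    Gammaℝ_ne_zero_of_re_pos (by simp; positivity)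
  have hX0 : Xh a 0 = 1 := by
    rw [gr, add_zero, div_self hg] at hT2
    simpa using hT2.symm
  refine ⟨?_, by simp [ld_P, hX0, riemannZeta₁_one]; ring⟩
  refine ContinuousAt.mul (ContinuousAt.mul ?_ (hA.1.continuousAt ?_)) ?_
  · have := differentiable_riemannZeta₁.continuous
    fun_prop
  · have : IsOpen {z : Fin 4 → ℂ | ∀ i, -(1 / 8) < (z i).re} := by
      rw [Set.ofPred_forall]
      exact isOpen_iInter_of_finite fun i => isOpen_lt continuous_const (by fun_prop)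
    exact this.mem_nhds fun i => by simp
  · exact tendsto_finsetProd _ fun j _ =>
      ContinuousAt.comp (f := fun z : Fin 4 → ℂ => z j) (x := 0) hT1.continuousAt
        (continuous_apply j).continuousAt

theorem Ph0_eq (a : ℕ) (z : Fin 4 → ℂ) : Ph0 a z = (Vd z * Vd fun j => z j ^ 2) * ld_P a z := by
  simp only [Ph0, KZ4, ld_P]
  ring

theorem both {a : ℕ} (ha : a ≤ 1) : ∃ r₀ : ℝ, 0 < r₀ ∧ ∃ P R : Polynomial ℂ,
    P.natDegree = 10 ∧ P.leadingCoeff = Aprod 4 0 / 4838400 ∧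
    R.natDegree = 10 ∧ R.leadingCoeff = Aprod 4 0 / 4838400 ∧
    ∀ r, 0 < r → r ≤ r₀ → (∀ x : ℝ, Qf 4 a r x = P.eval (x : ℂ)) ∧
      ∀ X : ℝ, 1 ≤ X → Qm 4 a r X = R.eval (Real.log X : ℂ) - R.eval 0 / X := by
  obtain ⟨r₀, h0, h1, hS⟩ := pPH0 pA4H a ha
  obtain ⟨c1, c2⟩ := ldP ha
  have hA0 := pA4H.2.2
  have hπ : (π : ℂ) ≠ 0 := ofReal_ne_zero.2 Real.pi_ne_zero
  have hk : (2 / 3 * ((2 * π : ℂ) ^ 4)⁻¹ : ℂ) ≠ 0 := by simp [hπ]
  have g1 := good h1 hS (Ph0_eq a) (g := fun _ => 1) fun _ _ => differentiableAt_const _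
  have g2 := good h1 hS (Ph0_eq a) (g := fun w => (1 + w)⁻¹) fun w hw =>
    DifferentiableAt.inv (by fun_prop) fun e => by
      rw [← neg_eq_iff_add_eq_zero.2 e, norm_neg, norm_one] at hw
      linarith
  have u0 : us 0 = 0 := by simp [us]
  obtain ⟨P, p1, p2, p3⟩ := poly h0 g1 (good_one h1) (continuousAt_const.mul c1)
    (by simp [c2, hA0]) hk
  obtain ⟨R, q1, q2, q3⟩ := poly h0 g2 (good_one h1)
    (ContinuousAt.mul (ContinuousAt.inv₀ (by unfold us; fun_prop) (by simp [u0])) c1)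
    (by simp [c2, hA0, u0]) hk
  refine ⟨r₀, h0, P, R, p1, ?_, q1, ?_, fun r hr hle => ⟨fun x => ?_, fun X hX => ?_⟩⟩
  · rw [p2, c2]
    field_simp
    norm_num
  · rw [q2, c2, u0]
    field_simp
    norm_num
  · rw [pQEQ a r x hr, ← p3 r hr hle]
    congr 2
    funext z
    rw [Ph0_eq, W]
    ring
  · have hX0 : 0 < X := by linarith
    have hX1 : (X : ℂ) ≠ 0 := ofReal_ne_zero.2 hX0.ne'
    have hQ := pQINT a r X hr (hle.trans h1) hX (hS.mono fun z hz j => (hz j).trans hle)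
    have hsub : Ann 4 r r ⊆ Ann 4 r r₀ := fun z hz j => ⟨(hz j).1, (hz j).2.trans hle⟩
    have e : (fun z => ((X : ℂ) ^ (1 + us z) - 1) / (1 + us z) * Ph0 a z / P8 z) = fun z =>
        X * (cexp ((Real.log X : ℝ) * us z) * (W z * ((1 + us z)⁻¹ * ld_P a z))) -
          cexp (0 * us z) * (W z * ((1 + us z)⁻¹ * ld_P a z)) := by
      funext z
      rw [cpow_add _ _ hX1, cpow_one, cpow_def_of_ne_zero hX1, ← ofReal_log hX0.le, Ph0_eq, W,
        zero_mul, Complex.exp_zero]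
      ring
    have e2 := pONB.2.1 4 r
      (fun z => X * (cexp ((Real.log X : ℝ) * us z) * (W z * ((1 + us z)⁻¹ * ld_P a z))))
      (fun z => cexp (0 * us z) * (W z * ((1 + us z)⁻¹ * ld_P a z))) hr (continuousOn_const.mul
      ((g2 (fun w => cexp ((Real.log X : ℝ) * w)) (by fun_prop) r hr).1.mono hsub))
      ((g2 (fun w => cexp (0 * w)) (by fun_prop) r hr).1.mono hsub)
    rw [e, e2, On_const_mul, mul_sub, mul_left_comm, q3 r hr hle, q3 r hr hle] at hQ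
    refine mul_left_cancel₀ hX1 ?_
    rw [hQ]
    field_simp

theorem ev {P : Polynomial ℂ} (h : P.natDegree = 10) (x : ℂ) :
    P.eval x = ∑ n : Fin 11, P.coeff n * x ^ (n : ℕ) := by
  rw [Polynomial.eval_eq_sum_range, h, sum_range]

theorem degree_ten {a : ℕ} (ha : a ≤ 1) : ∃ r₀ : ℝ, 0 < r₀ ∧ ∃ c : Fin 11 → ℂ, c 10 ≠ 0 ∧
    c 10 = Aprod 4 0 * ∏ j : Fin 4, ((2 * (j : ℕ)).factorial : ℂ) / (2 * (4 + (j : ℕ)).factorial) ∧
    ∀ r : ℝ, 0 < r → r ≤ r₀ → ∀ x : ℝ, Qf 4 a r x = ∑ n, c n * (x : ℂ) ^ (n : ℕ) := by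
  obtain ⟨r₀, h0, P, R, p1, p2, -, -, h⟩ := both ha
  rw [Polynomial.leadingCoeff, p1] at p2
  refine ⟨r₀, h0, fun n => P.coeff n, ?_, ?_, fun r hr hle x => ?_⟩
  · show P.coeff 10 ≠ 0
    simp [p2, pA4H.2.2]
  · show P.coeff 10 = _
    rw [p2]
    simp [Fin.prod_univ_four, Nat.factorial]
    ring
  · rw [(h r hr hle).1, ev p1]

theorem ten_terms {a : ℕ} (ha : a ≤ 1) : ∃ c : Fin 11 → ℂ, c 10 ≠ 0 ∧
    c 10 = Aprod 4 0 / 4838400 ∧
    (∃ r₀ : ℝ, 0 < r₀ ∧ ∀ r : ℝ, 0 < r → r ≤ r₀ → ∀ X : ℝ, 1 ≤ X →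
      Qm 4 a r X = ∑ n, c n * (Real.log X : ℂ) ^ (n : ℕ) - c 0 / X) ∧
    ∀ δ : ℝ, 0 < δ → ∃ C X₀ : ℝ, ∀ X : ℝ, X₀ ≤ X →
      ‖∑ d ∈ Sd a X, Lhalf d ^ 4 -
        3 * (X : ℂ) / (π : ℂ) ^ 2 * ∑ n, c n * (Real.log X : ℂ) ^ (n : ℕ)‖ ≤
          C * X * Real.log X ^ δ := by
  obtain ⟨r₀, h0, P, R, -, -, p1, p2, h⟩ := both ha
  obtain ⟨r₁, h1, hA⟩ := (main.1 : ADD 0) a ha
  rw [Polynomial.leadingCoeff, p1] at p2
  have key : ∀ r : ℝ, 0 < r → r ≤ r₀ → ∀ X : ℝ, 1 ≤ X →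
      Qm 4 a r X = ∑ n : Fin 11, R.coeff n * (Real.log X : ℂ) ^ (n : ℕ) - R.coeff 0 / X :=
    fun r hr hle X hX => by rw [(h r hr hle).2 X hX, ev p1, Polynomial.coeff_zero_eq_eval_zero]
  refine ⟨fun n => R.coeff n, ?_, p2, ⟨r₀, h0, key⟩, fun δ hδ => ?_⟩
  · show R.coeff 10 ≠ 0
    simp [p2, pA4H.2.2]
  obtain ⟨C, X₀, hC⟩ := hA (min r₀ r₁) (lt_min h0 h1) (min_le_right _ _) δ hδ
  refine ⟨C + ‖3 / (π : ℂ) ^ 2 * R.coeff 0‖, max X₀ 3, fun X hX => ?_⟩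
  have h2 := hC X ((le_max_left _ _).trans hX)
  have h3 : 3 ≤ X := (le_max_right _ _).trans hX
  have hX0 : (X : ℂ) ≠ 0 := ofReal_ne_zero.2 (by linarith)
  have h4 : 1 ≤ Real.log X := (Real.le_log_iff_exp_le (by linarith)).2
    (Real.exp_one_lt_three.le.trans h3)
  have h5 : 1 ≤ X * Real.log X ^ δ :=
    one_le_mul_of_one_le_of_one_le (by linarith) (Real.one_le_rpow h4 hδ.le)
  rw [key _ (lt_min h0 h1) (min_le_left _ _) X (by linarith), zero_add] at h2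
  generalize ∑ n : Fin 11, R.coeff n * (Real.log X : ℂ) ^ (n : ℕ) = S at h2 ⊢
  generalize ∑ d ∈ Sd a X, Lhalf d ^ 4 = T at h2 ⊢
  rw [show T - 3 * (X : ℂ) / (π : ℂ) ^ 2 * S = (T - 3 * (X : ℂ) / (π : ℂ) ^ 2 *
    (S - R.coeff 0 / X)) - 3 / (π : ℂ) ^ 2 * R.coeff 0 by field_simp; ring]
  refine (norm_sub_le _ _).trans ((add_le_add h2 (le_mul_of_one_le_right (norm_nonneg _) h5)).trans_eq
    (by ring))

theorem leading_term {a : ℕ} (ha : a ≤ 1) {ε : ℝ} (hε : 0 < ε) : ∃ X₀ : ℝ, ∀ X : ℝ, X₀ ≤ X →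
    ‖(∑ d ∈ Sd a X, Lhalf d ^ 4) / (3 * (X : ℂ) / (π : ℂ) ^ 2 *
      (Aprod 4 0 / 4838400 * (Real.log X : ℂ) ^ 10)) - 1‖ ≤ ε := by
  obtain ⟨c, c0, c1, -, h⟩ := ten_terms ha
  obtain ⟨C, X₀, h⟩ := h 1 one_pos
  rw [← c1]
  have hπ := Real.pi_pos
  have hc : 0 < ‖c 10‖ := norm_pos_iff.2 c0
  set K : ℝ := |C| + 3 / π ^ 2 * ∑ n : Fin 10, ‖c n.castSucc‖ with hK
  have hK0 : 0 ≤ K := by positivity
  refine ⟨max X₀ (Real.exp (1 + K / (3 / π ^ 2 * ‖c 10‖ * ε))), fun X hX => ?_⟩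
  have h1 := h X ((le_max_left _ _).trans hX)
  have h2 := (le_max_right _ _).trans hX
  have hX0 : 0 < X := (Real.exp_pos _).trans_le h2
  have h3 := (Real.le_log_iff_exp_le hX0).2 h2
  have h4 : 0 ≤ K / (3 / π ^ 2 * ‖c 10‖ * ε) := by positivity
  rw [Real.rpow_one, Fin.sum_univ_castSucc] at h1
  generalize Real.log X = L at h1 h3 ⊢
  have hL : 1 ≤ L := by linarith
  have n1 : ‖(3 * (X : ℂ) / (π : ℂ) ^ 2)‖ = 3 * X / π ^ 2 := by
    simp [abs_of_pos hπ, abs_of_pos hX0]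
  have n2 : ‖(L : ℂ)‖ = L := by rw [norm_real, Real.norm_of_nonneg (by linarith)]
  have n3 : ‖∑ n : Fin 10, c n.castSucc * (L : ℂ) ^ (n.castSucc : ℕ)‖ ≤
      (∑ n : Fin 10, ‖c n.castSucc‖) * L ^ 9 := by
    rw [sum_mul]
    refine (norm_sum_le _ _).trans (sum_le_sum fun n _ => ?_)
    rw [norm_mul, norm_pow, n2]
    exact mul_le_mul_of_nonneg_left (pow_le_pow_right₀ hL (by have := n.2; simp; omega))
      (norm_nonneg _)
  have n4 : ‖3 * (X : ℂ) / (π : ℂ) ^ 2 * (c 10 * (L : ℂ) ^ 10)‖ =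
      3 * X / π ^ 2 * (‖c 10‖ * L ^ 10) := by rw [norm_mul, norm_mul, norm_pow, n1, n2]
  have n5 : 0 < 3 * X / π ^ 2 * (‖c 10‖ * L ^ 10) := by positivity
  rw [div_sub_one (norm_pos_iff.1 (n4 ▸ n5)), norm_div, n4, div_le_iff₀ n5]
  change ‖_ - 3 * (X : ℂ) / (π : ℂ) ^ 2 * (_ + c 10 * (L : ℂ) ^ 10)‖ ≤ _ at h1
  generalize ∑ n : Fin 10, c n.castSucc * (L : ℂ) ^ (n.castSucc : ℕ) = S at h1 n3
  generalize ∑ d ∈ Sd a X, Lhalf d ^ 4 = T at h1 ⊢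
  rw [show T - 3 * (X : ℂ) / (π : ℂ) ^ 2 * (c 10 * (L : ℂ) ^ 10) = (T - 3 * (X : ℂ) / (π : ℂ) ^ 2 *
    (S + c 10 * (L : ℂ) ^ 10)) + 3 * (X : ℂ) / (π : ℂ) ^ 2 * S by ring]
  have n6 : C * X * L ≤ |C| * X * L ^ 9 := by
    gcongr
    · exact le_abs_self C
    · exact le_self_pow₀ hL (by norm_num)
  have n7 : K ≤ L * (3 / π ^ 2 * ‖c 10‖ * ε) := by
    rw [← div_le_iff₀ (by positivity)]
    linarith
  calc _ ≤ |C| * X * L ^ 9 + 3 * X / π ^ 2 * ((∑ n : Fin 10, ‖c n.castSucc‖) * L ^ 9) := by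
        refine (norm_add_le _ _).trans (add_le_add (h1.trans n6) ?_)
        rw [norm_mul, n1]
        gcongr
    _ = K * (X * L ^ 9) := by rw [hK]; ring
    _ ≤ L * (3 / π ^ 2 * ‖c 10‖ * ε) * (X * L ^ 9) := by gcongr
    _ = _ := by ring

theorem small_pow (C : ℝ) {ε : ℝ} (hε : 0 < ε) :
    ∃ X₀ : ℝ, ∀ X : ℝ, X₀ ≤ X → C * Real.log X ^ ((1 : ℝ) - 10) ≤ ε := by
  have h : Filter.Tendsto (fun X : ℝ => C * Real.log X ^ (-(9 : ℝ))) Filter.atTop (nhds (C * 0)) :=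
    ((tendsto_rpow_neg_atTop (by norm_num)).comp Real.tendsto_log_atTop).const_mul C
  rw [mul_zero] at h
  rw [show (1 : ℝ) - 10 = -9 by norm_num]
  exact Filter.eventually_atTop.1 (h.eventually (ge_mem_nhds hε))

end Pool.Agent.Q4.Tq
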