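import Pool.Agent.K.MP_ea46f5_nt.C32

/-! Control for the central value: it is the sum of the Dirichlet series. -/

namespace Pool.Agent.Q4.Tq

open Complex MeasureTheory Finset Filter Asymptotics Pool.Agent.QM Pool.Agent.EQ

theorem tend {q : ℕ} [NeZero q] {χ : DirichletCharacter ℂ q} (hχ : χ ≠ 1) {s : ℂ}
    (hs : 0 < s.re) :
    Tendsto (fun n : ℕ => ∑ k ∈ Icc 0 n, (k : ℂ) ^ (-s) * χ (k : ZMod q)) atTop
      (nhds (χ.LFunction s)) := by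
  have h₂ : s ≠ 0 := ne_zero_of_re_pos hs
  have hq : q ≠ 1 := fun e => hχ (by subst e; exact χ.level_one)
  have h0 : χ ((0 : ℕ) : ZMod q) = 0 := by rw [Nat.cast_zero]; exact χ.map_zero' hq
  have h₃ (t : ℝ) (ht : t ∈ Set.Ici 1) : DifferentiableAt ℝ (fun x : ℝ ↦ (x : ℂ) ^ (-s)) t :=
    differentiableAt_id.ofReal_cpow_const (zero_lt_one.trans_le ht).ne' (neg_ne_zero.mpr h₂)
  have h₄ : ∀ n, ∑ k ∈ Icc 0 n, χ ((k : ℕ) : ZMod q) = sgbA χ n := fun n ↦ by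
    rw [← insert_Icc_add_one_left_eq_Icc n.zero_le, sum_insert (by simp), h0, zero_add, zero_add,
      sgbA]
  have h₅ : ∀ t : ℝ, 0 < t → deriv (fun x : ℝ ↦ (x : ℂ) ^ (-s)) t = -s * (t : ℂ) ^ (-s - 1) :=
    fun t ht => deriv_ofReal_cpow_const ht.ne' (neg_ne_zero.mpr h₂)
  have h := tendsto_sum_mul_atTop_nhds_one_sub_integral₀ (fun k : ℕ => χ (k : ZMod q))
    (f := fun x ↦ (x : ℂ) ^ (-s)) (l := 0) (g := fun t => t ^ (-s.re - 1)) h0 h₃
    (Iff.mpr integrableOn_Ici_iff_integrableOn_Ioi <|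
      integrableOn_Ioi_deriv_ofReal_cpow zero_lt_one (by simpa using! hs)).locallyIntegrableOn
    ?_ ?_ (integrableAtFilter_rpow_atTop_iff.mpr (by linarith))
  · have e : χ.LFunction s = 0 - ∫ t in Set.Ioi (1 : ℝ), deriv (fun x : ℝ ↦ (x : ℂ) ^ (-s)) t *
        ∑ k ∈ Icc 0 ⌊t⌋₊, χ ((k : ℕ) : ZMod q) := by
      rw [sgb_repr hχ hs, zero_sub, ← integral_neg, ← integral_const_mul]
      refine setIntegral_congr_fun measurableSet_Ioi fun t ht ↦ ?_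
      rw [h₅ t (zero_lt_one.trans ht), h₄, show -(s + 1) = -s - 1 by ring]
      ring
    rw [e]
    simpa only [ofReal_natCast] using h
  · have hlim : Tendsto (fun n : ℕ ↦ (n : ℝ) ^ (-s.re) * q) atTop (nhds (0 * q)) :=
      ((tendsto_rpow_neg_atTop hs).comp tendsto_natCast_atTop_atTop).mul_const _
    rw [zero_mul] at hlim
    refine squeeze_zero_norm' ?_ hlim
    filter_upwards [eventually_gt_atTop 0] with n hn
    rw [norm_mul, h₄, norm_cpow_eq_rpow_re_of_pos (Nat.cast_pos.2 hn), neg_re]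
    exact mul_le_mul_of_nonneg_left (sgb_le_q hχ n) (by positivity)
  · refine IsBigO.of_bound (‖s‖ * q) ?_
    filter_upwards [eventually_gt_atTop 0] with t ht
    rw [h₅ t ht, h₄, norm_mul, norm_mul, norm_neg, norm_cpow_eq_rpow_re_of_pos ht,
      Real.norm_of_nonneg (by positivity), mul_right_comm]
    simp only [sub_re, neg_re, one_re]
    gcongr
    exact sgb_le_q hχ _

theorem series {d : ℤ} (hd : IsFund d) {ε : ℝ} (hε : 0 < ε) : ∃ N₀ : ℕ, ∀ N : ℕ, N₀ ≤ N →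
    ‖∑ n : Fin N, (kron d n : ℂ) * ((n : ℕ) : ℂ) ^ (-1 / 2 : ℂ) - Lhalf d‖ ≤ ε := by
  obtain ⟨k, hk, h1, rfl⟩ := (pBRG (pLOP pKR (pPRI pKR))).1 d hd
  obtain ⟨k1, k2, k3, k4, k5, k6, k7, k8⟩ := pKR k hk h1
  have hq : NeZero (disc k).natAbs := ⟨by omega⟩
  obtain ⟨χ, hχ⟩ := exists_char (disc k).natAbs (kron (disc k)) (by simp [kron]) k3 (fe_mod k4) k7
  have hprim : χ.IsPrimitive := fe_prim χ fun p hp hd => by
    obtain ⟨n, a, b⟩ := pPRI pKR k hk h1 p hp hd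
    exact ⟨n, a, by rw [hχ, b]; norm_num⟩
  have hne : χ ≠ 1 := by
    intro h
    rw [DirichletCharacter.isPrimitive_def, h, DirichletCharacter.conductor_one] at hprim
    omega
  have e : Lhalf (disc k) = χ.LFunction (1 / 2) := by
    rw [Lhalf, dif_neg hq.1]
    exact LP_eq (f := fun n => (kron (disc k) n : ℂ)) hχ _
  have h := tend hne (s := 1 / 2) (by norm_num)
  obtain ⟨N₀, h⟩ := Metric.tendsto_atTop.1 h ε hε
  refine ⟨N₀ + 1, fun N hN => ?_⟩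
  obtain ⟨M, rfl⟩ : ∃ M, N = M + 1 := ⟨N - 1, by omega⟩
  have h2 := h M (by omega)
  rw [dist_eq_norm, ← Nat.range_succ_eq_Icc_zero, sum_range] at h2
  rw [e]
  refine le_of_eq_of_le ?_ h2.le
  simp only [hχ, neg_div, mul_comm]

theorem euler {z : Fin 4 → ℂ} (hz : ∀ i, ‖z i‖ ≤ 1 / 16) {ε : ℝ} (hε : 0 < ε) :
    ∃ S₀ : Finset Nat.Primes, ∀ S : Finset Nat.Primes, (∀ p ∈ S₀, p ∈ S) →
      ‖∏ p ∈ S, (∏ i, ∏ j ∈ Ici i, (1 - ((p : ℕ) : ℂ) ^ (-1 - z i - z j))) *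
        (1 / 2 * (∏ j, (1 - ((p : ℕ) : ℂ) ^ (-1 / 2 - z j))⁻¹ +
          ∏ j, (1 + ((p : ℕ) : ℂ) ^ (-1 / 2 - z j))⁻¹) + 1 / ((p : ℕ) : ℂ)) *
        (1 + 1 / ((p : ℕ) : ℂ))⁻¹ - Aprod 4 z‖ ≤ ε := by
  obtain ⟨C, hC, h⟩ := aF_le
  have hU : z ∈ aU := fun i => by
    linarith [(abs_le.1 ((abs_re_le_norm (z i)).trans (hz i))).1]
  have hs : Summable fun p : Nat.Primes => C * ((p : ℕ) : ℝ) ^ (-(9 / 8) : ℝ) :=
    (Nat.Primes.summable_rpow.2 (by norm_num)).mul_left C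
  have h1 : Multipliable fun p : Nat.Primes => aF p z := by
    have := multipliable_one_add_of_summable (f := fun p : Nat.Primes => aF p z - 1)
      (hs.of_nonneg_of_le (fun _ => norm_nonneg _) fun p => h p z hU)
    simpa only [add_sub_cancel] using this
  have h2 : Tendsto (fun S : Finset Nat.Primes => ∏ p ∈ S, aF p z) atTop (nhds (Aprod 4 z)) := by
    rw [Aprod_eq]
    exact h1.hasProd
  obtain ⟨S₀, h3⟩ := Metric.tendsto_atTop.1 h2 ε hε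
  refine ⟨S₀, fun S hS => ?_⟩
  have h4 := h3 S hS
  rw [dist_eq_norm] at h4
  refine le_of_eq_of_le ?_ h4.le
  congr 2
  refine prod_congr rfl fun p _ => ?_
  have hp : ((p : ℕ) : ℂ) ≠ 0 := Nat.cast_ne_zero.2 p.2.ne_zero
  have : ∀ i j, ((p : ℕ) : ℂ) ^ (-1 - z i - z j) =
      ((p : ℕ) : ℂ) ^ (-1 / 2 - z i) * ((p : ℕ) : ℂ) ^ (-1 / 2 - z j) := fun i j => by
    rw [← cpow_add _ _ hp]; congr 1; ring
  simp only [aF, afac, this]

end Pool.Agent.Q4.Tq
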